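import Pool.Agent.Work.MP_5e2fde_an.Comp

set_option autoImplicit false

open Polynomial Filter

namespace Pool.Agent.Work.MP_5e2fde_an

/-- approximations of `∑ X^k / k!` -/
noncomputable def En (n : ℕ) : ℝ[X] := act (fun k => (1 / (n : ℝ)) ^ k) ((1 + X) ^ n)

lemma rr_one_add_X_pow (n : ℕ) : RR ((1 + X) ^ n) := by
  intro z hz
  rw [Polynomial.map_pow, Polynomial.map_add, Polynomial.map_one, map_X, eval_pow, eval_add,
    eval_one, eval_X]
  apply pow_ne_zero
  intro h
  have := congrArg Complex.im h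
  simp at this
  linarith

lemma rr_En (n : ℕ) (hn : 0 < n) : RR (En n) := (rr_one_add_X_pow n).act_pow _ (by positivity)

lemma coeff_En (n k : ℕ) : (En n).coeff k = (1 / (n : ℝ)) ^ k * (n.choose k : ℝ) := by
  rw [En, coeff_act, coeff_one_add_X_pow]

lemma coeff_En_tendsto (k : ℕ) : Tendsto (fun n => (En n).coeff k) atTop
    (nhds (1 / (k.factorial : ℝ))) := by
  have h := ProbabilityTheory.tendsto_choose_mul_pow_atTop (p := fun n : ℕ => 1 / (n : ℝ)) (r := 1) k
    (by
      refine tendsto_const_nhds.congr' ?_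
      filter_upwards [eventually_gt_atTop 0] with n hn
      have : (n : ℝ) ≠ 0 := by exact_mod_cast hn.ne'
      field_simp)
  simp only [one_pow] at h
  refine h.congr (fun n => ?_)
  rw [coeff_En]
  ring

/-- approximations of `∑ X^k / (k!)^2` -/
noncomputable def Gn (n : ℕ) : ℝ[X] := act (fun k => 1 / (k.factorial : ℝ)) (En n)

lemma rr_Gn (n : ℕ) (hn : 0 < n) : RR (Gn n) := (rr_En n hn).act_inv_factorial

lemma coeff_Gn_nonneg (n k : ℕ) : 0 ≤ (Gn n).coeff k := by
  rw [Gn, coeff_act, coeff_En]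
  positivity

lemma coeff_Gn_pos (n k : ℕ) (hn : 0 < n) (hk : k ≤ n) : 0 < (Gn n).coeff k := by
  rw [Gn, coeff_act, coeff_En]
  have : 0 < n.choose k := Nat.choose_pos hk
  have : 0 < (n.choose k : ℝ) := by exact_mod_cast this
  have : 0 < (k.factorial : ℝ) := by exact_mod_cast k.factorial_pos
  positivity

lemma coeff_Gn_tendsto (k : ℕ) : Tendsto (fun n => (Gn n).coeff k) atTop
    (nhds (1 / (k.factorial : ℝ) ^ 2)) := by
  have h := (coeff_En_tendsto k).const_mul (1 / (k.factorial : ℝ))
  unfold Gn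
  simp_rw [coeff_act]
  convert h using 2
  rw [sq]
  field_simp

/-- the multiplier sequence `(2k)! / (k!)^3` -/
noncomputable def beta (k : ℕ) : ℝ := ((2 * k).factorial : ℝ) / (k.factorial : ℝ) ^ 3

lemma sum_antidiagonal_inv_sq (k : ℕ) :
    ∑ p ∈ Finset.HasAntidiagonal.antidiagonal k, (1 / (p.1.factorial : ℝ) ^ 2) * (1 / (p.2.factorial : ℝ) ^ 2) =
      ((2 * k).factorial : ℝ) / (k.factorial : ℝ) ^ 4 := by
  have h1 := Nat.sum_range_choose_sq k
  have h2 : ∀ p ∈ Finset.HasAntidiagonal.antidiagonal k, (1 / (p.1.factorial : ℝ) ^ 2) * (1 / (p.2.factorial : ℝ) ^ 2)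
      = ((k.choose p.1 : ℕ) : ℝ) ^ 2 * (1 / (k.factorial : ℝ) ^ 2) := by
    intro p hp
    rw [Finset.HasAntidiagonal.mem_antidiagonal] at hp
    have h3 : (k.choose p.1) * p.1.factorial * p.2.factorial = k.factorial := by
      have := Nat.choose_mul_factorial_mul_factorial (n := k) (k := p.1) (by omega)
      rwa [show k - p.1 = p.2 by omega] at this
    have h4 : ((k.choose p.1 : ℕ) : ℝ) * (p.1.factorial : ℝ) * (p.2.factorial : ℝ) = (k.factorial : ℝ) := by
      exact_mod_cast h3
    have h5 : (p.1.factorial : ℝ) ≠ 0 := by exact_mod_cast p.1.factorial_ne_zero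
    have h6 : (p.2.factorial : ℝ) ≠ 0 := by exact_mod_cast p.2.factorial_ne_zero
    have h7 : ((k.choose p.1 : ℕ) : ℝ) ≠ 0 := by
      have : k.choose p.1 ≠ 0 := (Nat.choose_pos (by omega)).ne'
      exact_mod_cast this
    rw [← h4]
    field_simp
  rw [Finset.sum_congr rfl h2, ← Finset.sum_mul,
    Finset.Nat.sum_antidiagonal_eq_sum_range_succ_mk]
  have h8 : ∑ i ∈ Finset.range (k + 1), ((k.choose i : ℕ) : ℝ) ^ 2 = ((2 * k).choose k : ℕ) := by
    exact_mod_cast h1
  simp only
  rw [h8]
  have h9 := Nat.choose_mul_factorial_mul_factorial (n := 2 * k) (k := k) (by omega)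
  rw [show 2 * k - k = k by omega] at h9
  have h10 : (((2 * k).choose k : ℕ) : ℝ) * (k.factorial : ℝ) * (k.factorial : ℝ) = ((2 * k).factorial : ℝ) := by
    exact_mod_cast h9
  rw [← h10]
  have h6 : (k.factorial : ℝ) ≠ 0 := by exact_mod_cast k.factorial_ne_zero
  field_simp

lemma RR.act_beta {A : ℝ[X]} (h : RR A) : RR (act beta A) := by
  set d := A.natDegree with hd
  apply rr_of_tendsto (fun n => act (fun k => (k.factorial : ℝ) * ((Gn (n + d + 1)) ^ 2).coeff k) A) _ d
  · intro n
    have hpos : 0 < n + d + 1 := by omega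
    have hG := rr_Gn _ hpos
    apply h.compo
    · exact pow_ne_zero 2 hG.ne_zero
    · intro k hk
      rw [sq, coeff_mul]
      apply ne_of_gt
      have h0 : (0, k) ∈ Finset.HasAntidiagonal.antidiagonal k := by simp
      refine lt_of_lt_of_le ?_ (Finset.single_le_sum (fun p _ =>
        mul_nonneg (coeff_Gn_nonneg _ p.1) (coeff_Gn_nonneg _ p.2)) h0)
      exact mul_pos (coeff_Gn_pos _ _ hpos (by omega)) (coeff_Gn_pos _ _ hpos (by omega))
    · intro r hr
      apply hG.roots_neg (coeff_Gn_nonneg _) (coeff_Gn_pos _ 0 hpos (by omega))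
      rw [Polynomial.map_pow, roots_pow] at hr
      exact Multiset.mem_of_mem_nsmul hr
  · intro n
    exact natDegree_act_le _ _
  · exact natDegree_act_le _ _
  · intro k
    simp_rw [coeff_act]
    apply Tendsto.mul_const
    have h1 : Tendsto (fun n => ((Gn n) ^ 2).coeff k) atTop
        (nhds (((2 * k).factorial : ℝ) / (k.factorial : ℝ) ^ 4)) := by
      rw [← sum_antidiagonal_inv_sq]
      simp_rw [sq, coeff_mul, ← sq]
      apply tendsto_finsetSum
      intro p _
      exact (coeff_Gn_tendsto p.1).mul (coeff_Gn_tendsto p.2)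
    have h2 := h1.comp (tendsto_add_atTop_nat (d + 1))
    have h3 := h2.const_mul (k.factorial : ℝ)
    have e : (k.factorial : ℝ) * (((2 * k).factorial : ℝ) / (k.factorial : ℝ) ^ 4) = beta k := by
      unfold beta
      have h6 : (k.factorial : ℝ) ≠ 0 := by exact_mod_cast k.factorial_ne_zero
      field_simp
    rw [← e]
    exact h3
  · apply act_ne_zero _ h.ne_zero
    intro k
    unfold beta
    have h6 : (k.factorial : ℝ) ≠ 0 := by exact_mod_cast k.factorial_ne_zero
    have h7 : ((2 * k).factorial : ℝ) ≠ 0 := by exact_mod_cast (2 * k).factorial_ne_zero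
    positivity

end Pool.Agent.Work.MP_5e2fde_an
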