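import Pool.Agent.Work.MP_5e2fde_an.Kernel
import Pool.Agent.Work.MP_5e2fde_an.Beta

set_option autoImplicit false

open Polynomial Filter

namespace Pool.Agent.Work.MP_5e2fde_an

/-- A sequence of decreasing points with alternating signs forces all zeros to be real. -/
lemma rr_of_alternating (P : ℝ[X]) (n : ℕ) (hn : 1 ≤ n) (hdeg : P.natDegree ≤ n) (x : ℕ → ℝ)
    (hx : ∀ m, m < n → x (m + 1) < x m)
    (h0 : P.eval (x 0) = 0 ∨ 0 < P.eval (x 0))
    (hs : ∀ m, 1 ≤ m → m ≤ n → 0 < (-1 : ℝ) ^ m * P.eval (x m)) : RR P := by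
  have hP : P ≠ 0 := by
    rintro rfl
    have := hs 1 le_rfl hn
    simp at this
  have hroot : ∀ m, m < n → ∃ ξ, P.eval ξ = 0 ∧ x (m + 1) < ξ ∧ ξ ≤ x m := by
    intro m hm
    have h1 := hs (m + 1) (by omega) (by omega)
    have hcont : ContinuousOn (fun y => P.eval y) (Set.Icc (x (m + 1)) (x m)) :=
      P.continuous.continuousOn
    have hlt := hx m hm
    by_cases hz : P.eval (x m) = 0
    · exact ⟨x m, hz, hlt, le_rfl⟩
    · have h2 : 0 < (-1 : ℝ) ^ m * P.eval (x m) := by
        rcases Nat.eq_zero_or_pos m with rfl | hm'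
        · rcases h0 with h0 | h0
          · exact absurd h0 hz
          · simpa using h0
        · exact hs m hm' (by omega)
      rcases neg_one_pow_eq_or ℝ m with h3 | h3
      · rw [h3, one_mul] at h2
        rw [pow_succ, h3] at h1
        have h4 : P.eval (x (m + 1)) < 0 := by linarith
        obtain ⟨ξ, hξ, hξ0⟩ := intermediate_value_Icc hlt.le hcont ⟨h4.le, h2.le⟩
        refine ⟨ξ, hξ0, ?_, hξ.2⟩
        rcases hξ.1.eq_or_lt with h | h
        · simp only at hξ0; rw [← h] at hξ0; linarith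
        · exact h
      · rw [h3] at h2
        rw [pow_succ, h3] at h1
        have h4 : 0 < P.eval (x (m + 1)) := by linarith
        obtain ⟨ξ, hξ, hξ0⟩ := intermediate_value_Icc' hlt.le hcont ⟨by linarith, h4.le⟩
        refine ⟨ξ, hξ0, ?_, hξ.2⟩
        rcases hξ.1.eq_or_lt with h | h
        · simp only at hξ0; rw [← h] at hξ0; linarith
        · exact h
  choose! ξ hξ0 hξ1 hξ2 using hroot
  have hanti : ∀ i j, i < j → j < n → ξ j < ξ i := by
    intro i j hij
    induction j with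
    | zero => omega
    | succ j ih =>
      intro hj
      have h1 : ξ (j + 1) < ξ j := lt_of_le_of_lt (hξ2 (j + 1) hj) (hξ1 j (by omega))
      rcases Nat.lt_succ_iff_lt_or_eq.1 hij with h | h
      · exact h1.trans (ih h (by omega))
      · rw [h]; exact h1
  have hinj : Set.InjOn ξ (Finset.range n : Set ℕ) := by
    intro i hi j hj h
    simp only [Finset.coe_range, Set.mem_Iio] at hi hj
    rcases lt_trichotomy i j with hij | hij | hij
    · have := hanti i j hij hj; linarith
    · exact hij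
    · have := hanti j i hij hi; linarith
  have hsub : (Finset.range n).image ξ ⊆ P.roots.toFinset := by
    intro y hy
    rw [Finset.mem_image] at hy
    obtain ⟨i, hi, rfl⟩ := hy
    rw [Multiset.mem_toFinset, mem_roots']
    exact ⟨hP, hξ0 i (Finset.mem_range.1 hi)⟩
  have hcard : n ≤ Multiset.card P.roots := by
    have h1 := Finset.card_le_card hsub
    rw [Finset.card_image_of_injOn hinj, Finset.card_range] at h1
    exact h1.trans (Multiset.toFinset_card_le _)
  have hsplit : P.Splits := by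
    rw [splits_iff_card_roots]
    have := card_roots' P
    omega
  intro z hz h0
  have hmem : z ∈ (P.map (algebraMap ℝ ℂ)).roots := by
    rw [mem_roots']
    refine ⟨?_, h0⟩
    intro h
    exact hP ((Polynomial.map_eq_zero_iff (algebraMap ℝ ℂ).injective).1 h)
  rw [hsplit.roots_map, Multiset.mem_map] at hmem
  obtain ⟨r, _, rfl⟩ := hmem
  simp at hz

/-- rescaled Chebyshev polynomials -/
noncomputable def CN (n : ℕ) : ℝ[X] :=
  (Chebyshev.T ℝ n).comp (C (1 / (2 * (n : ℝ) ^ 2)) * X + C 1)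

/-- the weights `∏ (1 - l² / n²)` -/
noncomputable def wt (n k : ℕ) : ℝ := ∏ l ∈ Finset.range k, (1 - (l : ℝ) ^ 2 / (n : ℝ) ^ 2)

lemma prod_odd (k : ℕ) : (∏ l ∈ Finset.range k, (2 * (l : ℝ) + 1)) * (2 ^ k * (k.factorial : ℝ)) =
    ((2 * k).factorial : ℝ) := by
  induction k with
  | zero => simp
  | succ k ih =>
    rw [Finset.prod_range_succ, show 2 * (k + 1) = 2 * k + 1 + 1 by ring, Nat.factorial_succ,
      Nat.factorial_succ, Nat.factorial_succ]
    push_cast
    rw [← ih]
    ring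

lemma coeff_CN (n k : ℕ) (hn : 1 ≤ n) : (CN n).coeff k = wt n k / ((2 * k).factorial : ℝ) := by
  have hn' : (n : ℝ) ≠ 0 := by
    have : n ≠ 0 := by omega
    exact_mod_cast this
  have h1 : CN n = (taylor 1 (Chebyshev.T ℝ n)).comp (C (1 / (2 * (n : ℝ) ^ 2)) * X) := by
    rw [CN, taylor_apply, comp_assoc]
    congr 1
    simp
  rw [h1, comp_C_mul_X_coeff, taylor_coeff]
  have h2 : (k.factorial : ℝ) * (hasseDeriv k (Chebyshev.T ℝ n)).eval 1 =
      (derivative^[k] (Chebyshev.T ℝ n)).eval 1 := by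
    have := congrFun (factorial_smul_hasseDeriv (R := ℝ) k) (Chebyshev.T ℝ n)
    rw [← this]
    simp
  have h3 := Chebyshev.iterate_derivative_T_eval_one (R := ℝ) (n : ℤ) k
  push_cast at h3
  have h4 : wt n k * ((n : ℝ) ^ 2) ^ k = ∏ l ∈ Finset.range k, ((n : ℝ) ^ 2 - (l : ℝ) ^ 2) := by
    have : ((n : ℝ) ^ 2) ^ k = ∏ l ∈ Finset.range k, ((n : ℝ) ^ 2) := by simp
    rw [this, wt, ← Finset.prod_mul_distrib]
    apply Finset.prod_congr rfl
    intro l _
    field_simp
  rw [← h2, ← h4] at h3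
  rw [← prod_odd]
  have h5 : (∏ l ∈ Finset.range k, (2 * (l : ℝ) + 1)) ≠ 0 := by
    apply Finset.prod_ne_zero_iff.2
    intro l _
    positivity
  have h6 : (k.factorial : ℝ) ≠ 0 := by exact_mod_cast k.factorial_ne_zero
  rw [eq_div_iff (by positivity), div_pow, mul_pow, one_pow]
  field_simp
  linear_combination h3

lemma wt_nonneg (n k : ℕ) (hn : 1 ≤ n) : 0 ≤ wt n k := by
  have hn' : (0 : ℝ) < n := by exact_mod_cast hn
  rcases le_or_gt k (n + 1) with h | h
  · apply Finset.prod_nonneg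
    intro l hl
    rw [Finset.mem_range] at hl
    rw [sub_nonneg, div_le_one (by positivity)]
    have : (l : ℝ) ≤ n := by
      have : l ≤ n := by omega
      exact_mod_cast this
    gcongr
  · have : wt n k = 0 := by
      apply Finset.prod_eq_zero (i := n)
      · rw [Finset.mem_range]; omega
      · field_simp; simp
    rw [this]

lemma wt_pos (n k : ℕ) (hn : 1 ≤ n) (hk : k ≤ n) : 0 < wt n k := by
  have hn' : (0 : ℝ) < n := by exact_mod_cast hn
  apply Finset.prod_pos
  intro l hl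
  rw [Finset.mem_range] at hl
  rw [sub_pos, div_lt_one (by positivity)]
  have : (l : ℝ) < n := by
    have : l < n := by omega
    exact_mod_cast this
  gcongr

lemma wt_le_one (n k : ℕ) (hn : 1 ≤ n) : wt n k ≤ 1 := by
  have hn' : (0 : ℝ) < n := by exact_mod_cast hn
  rcases le_or_gt k (n + 1) with h | h
  · apply Finset.prod_le_one
    · intro l hl
      rw [Finset.mem_range] at hl
      rw [sub_nonneg, div_le_one (by positivity)]
      have : (l : ℝ) ≤ n := by
        have : l ≤ n := by omega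
        exact_mod_cast this
      gcongr
    · intro l _
      have : 0 ≤ (l : ℝ) ^ 2 / (n : ℝ) ^ 2 := by positivity
      linarith
  · have : wt n k = 0 := by
      apply Finset.prod_eq_zero (i := n)
      · rw [Finset.mem_range]; omega
      · field_simp; simp
    rw [this]
    exact zero_le_one

lemma wt_tendsto (k : ℕ) : Tendsto (fun n => wt n k) atTop (nhds 1) := by
  have key : Tendsto (fun n : ℕ => ∏ l ∈ Finset.range k, (1 - (l : ℝ) ^ 2 / (n : ℝ) ^ 2)) atTop
      (nhds (∏ l ∈ Finset.range k, (1 : ℝ))) := by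
    apply tendsto_finsetProd
    intro l _
    have h1 := tendsto_one_div_atTop_nhds_zero_nat (𝕜 := ℝ)
    have h2 := ((h1.pow 2).const_mul ((l : ℝ) ^ 2)).const_sub 1
    simp only [ne_eq, OfNat.ofNat_ne_zero, not_false_eq_true, zero_pow, mul_zero, sub_zero] at h2
    refine h2.congr (fun n => ?_)
    ring
  simpa [wt] using key

lemma natDegree_CN_le (n : ℕ) : (CN n).natDegree ≤ n := by
  unfold CN
  refine natDegree_comp_le.trans ?_
  rw [Chebyshev.natDegree_T, Int.natAbs_natCast]
  have : (C (1 / (2 * (n : ℝ) ^ 2)) * X + C 1 : ℝ[X]).natDegree ≤ 1 := natDegree_linear_le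
  calc n * _ ≤ n * 1 := Nat.mul_le_mul_left n this
    _ = n := mul_one n

/-- the abscissae -/
noncomputable def xc (n : ℕ) (t : ℝ) : ℝ := -(2 * (n : ℝ) ^ 2 * (1 - Real.cos (t * Real.pi / n)))

lemma CN_eval_xc (n : ℕ) (hn : 1 ≤ n) (t : ℝ) : (CN n).eval (xc n t) = Real.cos (t * Real.pi) := by
  have hn' : (n : ℝ) ≠ 0 := by
    have : n ≠ 0 := by omega
    exact_mod_cast this
  unfold CN xc
  rw [eval_comp, eval_add, eval_mul, eval_C, eval_X, eval_C]
  have h1 : 1 / (2 * (n : ℝ) ^ 2) * -(2 * (n : ℝ) ^ 2 * (1 - Real.cos (t * Real.pi / n))) + 1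
      = Real.cos (t * Real.pi / n) := by
    field_simp
    ring
  rw [h1, Chebyshev.T_real_cos]
  congr 1
  push_cast
  field_simp

/-- every point of `[-4n², 0]` is of the form `xc n t` with `0 ≤ t ≤ n`. -/
lemma exists_xc (n : ℕ) (hn : 1 ≤ n) {y : ℝ} (h1 : -(4 * (n : ℝ) ^ 2) ≤ y) (h2 : y ≤ 0) :
    ∃ t, y = xc n t := by
  have hn' : (n : ℝ) ≠ 0 := by
    have : n ≠ 0 := by omega
    exact_mod_cast this
  have hn2 : (0 : ℝ) < (n : ℝ) ^ 2 := by positivity
  refine ⟨Real.arccos (1 + y / (2 * (n : ℝ) ^ 2)) * n / Real.pi, ?_⟩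
  unfold xc
  have h3 : Real.arccos (1 + y / (2 * (n : ℝ) ^ 2)) * n / Real.pi * Real.pi / n =
      Real.arccos (1 + y / (2 * (n : ℝ) ^ 2)) := by
    have := Real.pi_ne_zero
    field_simp
  rw [h3, Real.cos_arccos]
  · field_simp; ring
  · have : -2 ≤ y / (2 * (n : ℝ) ^ 2) := by
      rw [le_div_iff₀ (by positivity)]; linarith
    linarith
  · have : y / (2 * (n : ℝ) ^ 2) ≤ 0 := div_nonpos_of_nonpos_of_nonneg h2 (by positivity)
    linarith

lemma abs_CN_le (n : ℕ) (hn : 1 ≤ n) {y : ℝ} (h1 : -(4 * (n : ℝ) ^ 2) ≤ y) (h2 : y ≤ 0) :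
    |(CN n).eval y| ≤ 1 := by
  obtain ⟨t, rfl⟩ := exists_xc n hn h1 h2
  rw [CN_eval_xc n hn]
  exact Real.abs_cos_le_one _

lemma xc_nonpos (n : ℕ) (t : ℝ) : xc n t ≤ 0 := by
  unfold xc
  have := Real.cos_le_one (t * Real.pi / n)
  have : 0 ≤ 2 * (n : ℝ) ^ 2 * (1 - Real.cos (t * Real.pi / n)) := by
    apply mul_nonneg (by positivity); linarith
  linarith

lemma xc_ge (n : ℕ) (t : ℝ) : -(4 * (n : ℝ) ^ 2) ≤ xc n t := by
  unfold xc
  have := Real.neg_one_le_cos (t * Real.pi / n)
  have h : 2 * (n : ℝ) ^ 2 * (1 - Real.cos (t * Real.pi / n)) ≤ 2 * (n : ℝ) ^ 2 * 2 := by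
    apply mul_le_mul_of_nonneg_left _ (by positivity); linarith
  linarith

lemma xc_lt (n : ℕ) (hn : 1 ≤ n) {a b : ℝ} (ha : 0 ≤ a) (hab : a < b) (hb : b ≤ n) :
    xc n b < xc n a := by
  have hn' : (0 : ℝ) < n := by exact_mod_cast hn
  unfold xc
  have hpi := Real.pi_pos
  have h1 : Real.cos (b * Real.pi / n) < Real.cos (a * Real.pi / n) := by
    apply Real.cos_lt_cos_of_nonneg_of_le_pi
    · positivity
    · rw [div_le_iff₀ hn']
      nlinarith
    · gcongr
  have h2 : (0 : ℝ) < 2 * (n : ℝ) ^ 2 := by positivity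
  nlinarith

lemma rr_CN (n : ℕ) (hn : 1 ≤ n) : RR (CN n) := by
  apply rr_of_alternating (CN n) n hn (natDegree_CN_le n) (fun m => xc n m)
  · intro m hm
    apply xc_lt n hn (by positivity)
    · push_cast; linarith
    · exact_mod_cast hm
  · right
    rw [CN_eval_xc n hn]
    simp
  · intro m _ _
    rw [CN_eval_xc n hn, Real.cos_nat_mul_pi, ← mul_pow]
    simp

lemma rr_act_rpow_CN (n : ℕ) (hn : 1 ≤ n) {s : ℝ} (hs0 : 0 < s) (hs1 : s < 1) :
    RR (act (fun k => (k : ℝ) ^ s) (CN n)) := by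
  have hn' : (0 : ℝ) < n := by exact_mod_cast hn
  apply rr_of_alternating _ n hn ((natDegree_act_le _ _).trans (natDegree_CN_le n)) (fun m => xc n m)
  · intro m hm
    apply xc_lt n hn (by positivity)
    · push_cast; linarith
    · exact_mod_cast hm
  · left
    have : xc n ((0 : ℕ) : ℝ) = 0 := by simp [xc]
    rw [this, ← coeff_zero_eq_eval_zero, coeff_act]
    simp [Real.zero_rpow hs0.ne']
  · intro m hm1 hmn
    have hm1' : (1 : ℝ) ≤ m := by exact_mod_cast hm1
    have hmn' : (m : ℝ) ≤ n := by exact_mod_cast hmn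
    have hval : (CN n).eval (xc n m) = (-1 : ℝ) ^ m := by
      rw [CN_eval_xc n hn, Real.cos_nat_mul_pi]
    have hsq : (-1 : ℝ) ^ m * (-1 : ℝ) ^ m = 1 := by rw [← mul_pow]; simp
    have hxneg : xc n m < 0 := by
      have := xc_lt n hn le_rfl (show (0 : ℝ) < m by linarith) hmn'
      have h0 : xc n 0 = 0 := by simp [xc]
      rwa [h0] at this
    have hhalf : xc n m < xc n (m - 1 / 2) := xc_lt n hn (by linarith) (by linarith) hmn'
    have hhalf2 : xc n (m - 1 / 2) < 0 := by
      have := xc_lt n hn le_rfl (show (0 : ℝ) < m - 1 / 2 by linarith) (by linarith)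
      have h0 : xc n 0 = 0 := by simp [xc]
      rwa [h0] at this
    have hu₀ : 0 < Real.log (xc n m / xc n (m - 1 / 2)) := by
      apply Real.log_pos
      rw [one_lt_div_of_neg hhalf2]
      exact hhalf
    apply act_rpow_sign hs0 hs1 (CN n) (xc n m) ((-1 : ℝ) ^ m) _ hu₀
    · have e1 : xc n m * Real.exp (-Real.log (xc n m / xc n (m - 1 / 2))) = xc n (m - 1 / 2) := by
        rw [Real.exp_neg, Real.exp_log (div_pos_of_neg_of_neg hxneg hhalf2), inv_div,
          ← mul_div_assoc, mul_comm, mul_div_assoc, div_self hxneg.ne, mul_one]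
      rw [e1, hval, CN_eval_xc n hn, mul_sub, hsq]
      have : Real.cos (((m : ℝ) - 1 / 2) * Real.pi) = 0 := by
        have : ((m : ℝ) - 1 / 2) * Real.pi = m * Real.pi - Real.pi / 2 := by ring
        rw [this, Real.cos_sub_pi_div_two, Real.sin_nat_mul_pi]
      rw [this]
      norm_num
    · intro u hu
      rw [hval, mul_sub, hsq]
      have h1 : |(CN n).eval (xc n m * Real.exp (-u))| ≤ 1 := by
        have he : Real.exp (-u) ≤ 1 := by rw [Real.exp_le_one_iff]; linarith
        have he0 := Real.exp_pos (-u)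
        apply abs_CN_le n hn
        · refine (xc_ge n m).trans ?_
          nlinarith
        · nlinarith
      have h2 : (-1 : ℝ) ^ m * (CN n).eval (xc n m * Real.exp (-u)) ≤ 1 := by
        refine (le_abs_self _).trans ?_
        rw [abs_mul, abs_neg_one_pow, one_mul]
        exact h1
      linarith

end Pool.Agent.Work.MP_5e2fde_an
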