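import Pool.Agent.Work.MP_5e2fde_an.Mult

set_option autoImplicit false

open Polynomial Filter

namespace Pool.Agent.Work.MP_5e2fde_an

/-- no zeros in the open upper half plane, and none at the origin -/
def StabU (A : ℂ[X]) : Prop := Stab A ∧ A.eval 0 ≠ 0

/-- the operator `B(x D)` -/
noncomputable def Op (x : ℂ) (B : ℂ[X]) : Module.End ℂ ℂ[X] :=
  aeval (x • (derivative : ℂ[X] →ₗ[ℂ] ℂ[X])) B

lemma Op_mul (x : ℂ) (B₁ B₂ : ℂ[X]) (A : ℂ[X]) : Op x (B₁ * B₂) A = Op x B₁ (Op x B₂ A) := by
  unfold Op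
  rw [map_mul]
  rfl

lemma Op_C (x c : ℂ) (A : ℂ[X]) : Op x (C c) A = C c * A := by
  unfold Op
  rw [aeval_C, Module.algebraMap_end_apply, smul_eq_C_mul]

lemma Op_X_sub_C (x r : ℂ) (A : ℂ[X]) : Op x (X - C r) A = C x * derivative A - C r * A := by
  unfold Op
  rw [map_sub, aeval_X, aeval_C, LinearMap.sub_apply, Module.algebraMap_end_apply,
    LinearMap.smul_apply, smul_eq_C_mul, smul_eq_C_mul]

lemma StabU.step {A : ℂ[X]} (h : StabU A) {x r : ℂ} (hx : 0 < x.im) (hr : r.im = 0 ∧ r.re < 0) :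
    StabU (Op x (X - C r) A) := by
  have key : ∀ y : ℂ, 0 ≤ y.im → A.eval y ≠ 0 → (Op x (X - C r) A).eval y ≠ 0 := by
    intro y hy hA h0
    obtain ⟨S, hS, hS'⟩ := h.1.logDeriv hy hA
    rw [Op_X_sub_C, eval_sub, eval_mul, eval_mul, eval_C, eval_C, hS'] at h0
    have h1 : A.eval y * (x * S - r) = 0 := by linear_combination h0
    rcases mul_eq_zero.1 h1 with h2 | h2
    · exact hA h2
    · have hx0 : x ≠ 0 := by rintro rfl; simp at hx
      have h3 : S = r / x := by
        field_simp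
        linear_combination h2
      have h4 : S.im = - r.re * x.im / Complex.normSq x := by
        rw [h3, Complex.div_im, hr.1]
        ring
      have hn : 0 < Complex.normSq x := Complex.normSq_pos.2 hx0
      have h5 : 0 < - r.re * x.im / Complex.normSq x := by
        apply div_pos _ hn
        apply mul_pos _ hx
        linarith [hr.2]
      linarith
  exact ⟨fun z hz => key z hz.le (h.1 z hz), key 0 (by simp) h.2⟩

lemma StabU.const {A : ℂ[X]} (h : StabU A) {x c : ℂ} (hc : c ≠ 0) : StabU (Op x (C c) A) := by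
  rw [Op_C]
  refine ⟨fun z hz => ?_, ?_⟩
  · rw [eval_mul, eval_C]
    exact mul_ne_zero hc (h.1 z hz)
  · rw [eval_mul, eval_C]
    exact mul_ne_zero hc h.2

lemma StabU.op {A : ℂ[X]} (h : StabU A) {x : ℂ} (hx : 0 < x.im) (B : ℂ[X]) (hB : B ≠ 0)
    (hr : ∀ r ∈ B.roots, r.im = 0 ∧ r.re < 0) : StabU (Op x B A) := by
  have key : ∀ s : Multiset ℂ, (∀ r ∈ s, r.im = 0 ∧ r.re < 0) →
      StabU (Op x ((s.map fun a => X - C a).prod) A) := by
    intro s
    induction s using Multiset.induction_on with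
    | empty =>
      intro _
      rw [Multiset.map_zero, Multiset.prod_zero, ← C_1]
      exact h.const one_ne_zero
    | cons a s ih =>
      intro hs
      rw [Multiset.map_cons, Multiset.prod_cons, Op_mul]
      exact (ih (fun r hr => hs r (Multiset.mem_cons_of_mem hr))).step hx
        (hs a (Multiset.mem_cons_self a s))
  have h1 := (IsAlgClosed.splits B).eq_prod_roots
  rw [h1, Op_mul]
  exact (key B.roots hr).const (leadingCoeff_ne_zero.2 hB)

lemma Op_eval_zero (x : ℂ) (B A : ℂ[X]) (n : ℕ) (hn : B.natDegree < n) :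
    (Op x B A).eval 0 = ∑ k ∈ Finset.range n, B.coeff k * x ^ k * ((k.factorial : ℂ) * A.coeff k) := by
  unfold Op
  rw [aeval_eq_sum_range' hn]
  rw [LinearMap.sum_apply, eval_finsetSum]
  apply Finset.sum_congr rfl
  intro k _
  rw [_root_.smul_pow, LinearMap.smul_apply, LinearMap.smul_apply, Module.End.pow_apply, eval_smul, eval_smul]
  have : eval 0 ((⇑(derivative : ℂ[X] →ₗ[ℂ] ℂ[X]))^[k] A) = (k.factorial : ℂ) * A.coeff k := by
    rw [← coeff_zero_eq_eval_zero, coeff_iterate_derivative]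
    simp [Nat.descFactorial_self]
  rw [this]
  simp only [smul_eq_mul]
  ring

/-- A real polynomial without zeros in the upper half plane and with positive coefficients has
only real negative zeros. -/
lemma RR.roots_neg {B : ℝ[X]} (h : RR B) (hpos : ∀ k, 0 ≤ B.coeff k) (h0 : 0 < B.coeff 0) :
    ∀ r ∈ (B.map (algebraMap ℝ ℂ)).roots, r.im = 0 ∧ r.re < 0 := by
  intro r hr
  have h1 := Stab.root_im h hr
  have hr0 : (B.map (algebraMap ℝ ℂ)).eval r = 0 := (mem_roots'.1 hr).2
  have hconj : (B.map (algebraMap ℝ ℂ)).eval (starRingEnd ℂ r) = 0 := by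
    rw [eval_map_algebraMap] at hr0 ⊢
    rw [aeval_conj, hr0, map_zero]
  have h2 : 0 ≤ r.im := by
    by_contra hcon
    push Not at hcon
    apply h (starRingEnd ℂ r) _ hconj
    rw [Complex.conj_im]
    linarith
  have him : r.im = 0 := le_antisymm h1 h2
  refine ⟨him, ?_⟩
  by_contra hcon
  push Not at hcon
  have hr' : r = ((r.re : ℝ) : ℂ) := Complex.ext rfl (by simpa using him)
  rw [hr', eval_map_algebraMap] at hr0
  have h3 : (aeval ((r.re : ℝ) : ℂ)) B = ((B.eval r.re : ℝ) : ℂ) := by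
    have := aeval_algebraMap_apply ℂ (r.re) B
    simpa using this
  rw [h3] at hr0
  have h4 : B.eval r.re = 0 := by exact_mod_cast hr0
  have h5 : B.coeff 0 ≤ B.eval r.re := by
    rw [eval_eq_sum_range, Finset.sum_range_succ']
    simp only [pow_zero, mul_one]
    have : 0 ≤ ∑ k ∈ Finset.range B.natDegree, B.coeff (k + 1) * r.re ^ (k + 1) :=
      Finset.sum_nonneg (fun k _ => mul_nonneg (hpos _) (pow_nonneg hcon _))
    linarith
  linarith

/-- The composition theorem (Schur, Malo) in the case of nonzero constant term. -/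
lemma RR.compo_aux {A B : ℝ[X]} (hA : RR A) (hA0 : A.coeff 0 ≠ 0) (hB : B ≠ 0)
    (hr : ∀ r ∈ (B.map (algebraMap ℝ ℂ)).roots, r.im = 0 ∧ r.re < 0) :
    RR (act (fun k => (k.factorial : ℝ) * B.coeff k) A) := by
  intro x hx
  have hU : StabU (A.map (algebraMap ℝ ℂ)) := by
    refine ⟨hA, ?_⟩
    rw [← coeff_zero_eq_eval_zero, coeff_map]
    simpa using hA0
  have hB' : B.map (algebraMap ℝ ℂ) ≠ 0 := by
    intro h
    exact hB ((Polynomial.map_eq_zero_iff (algebraMap ℝ ℂ).injective).1 h)
  have h1 := (hU.op hx _ hB' hr).2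
  set n := max (A.natDegree + 1) ((B.map (algebraMap ℝ ℂ)).natDegree + 1) with hn
  rw [Op_eval_zero x _ _ n (by omega)] at h1
  rw [eval_map, eval₂_eq_sum_range' (n := n) _ (by have := natDegree_act_le (fun k => (k.factorial : ℝ) * B.coeff k) A; omega)]
  convert h1 using 2 with k _
  rw [coeff_act, coeff_map, coeff_map]
  push_cast
  simp only [Complex.coe_algebraMap]
  ring

lemma rr_taylor {A : ℝ[X]} (hA : RR A) (e : ℝ) : RR (taylor e A) := by
  intro z hz
  rw [taylor_apply, Polynomial.map_comp, eval_comp]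
  apply hA
  simp
  exact hz

/-- The composition theorem (Schur, Malo). -/
lemma RR.compo {A B : ℝ[X]} (hA : RR A) (hB : B ≠ 0) (hBpos : ∀ k ≤ A.natDegree, B.coeff k ≠ 0)
    (hr : ∀ r ∈ (B.map (algebraMap ℝ ℂ)).roots, r.im = 0 ∧ r.re < 0) :
    RR (act (fun k => (k.factorial : ℝ) * B.coeff k) A) := by
  have hex : ∀ n : ℕ, ∃ e : ℝ, 0 < e ∧ e < 1 / ((n : ℝ) + 1) ∧ A.eval e ≠ 0 := by
    intro n
    have hinf : (Set.Ioo (0 : ℝ) (1 / ((n : ℝ) + 1))).Infinite := Set.Ioo_infinite (by positivity)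
    have hfin : {x | A.IsRoot x}.Finite := finite_setOfPred_isRoot hA.ne_zero
    obtain ⟨e, he, he'⟩ := (hinf.sdiff hfin).nonempty
    exact ⟨e, he.1, he.2, he'⟩
  choose e he1 he2 he3 using hex
  have he : Tendsto e atTop (nhds 0) :=
    squeeze_zero (fun n => (he1 n).le) (fun n => (he2 n).le) tendsto_one_div_add_atTop_nhds_zero_nat
  apply rr_of_tendsto (fun n => act (fun k => (k.factorial : ℝ) * B.coeff k) (taylor (e n) A)) _
    A.natDegree
  · intro n
    apply (rr_taylor hA (e n)).compo_aux _ hB hr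
    rw [taylor_coeff_zero]
    exact he3 n
  · intro n
    exact (natDegree_act_le _ _).trans (natDegree_taylor A (e n)).le
  · exact natDegree_act_le _ _
  · intro k
    simp_rw [coeff_act]
    apply Tendsto.const_mul
    simp_rw [taylor_coeff]
    have h1 := (Polynomial.continuous (hasseDeriv k A)).tendsto 0
    have h2 : (hasseDeriv k A).eval 0 = A.coeff k := by
      rw [← taylor_coeff, taylor_zero]
    rw [h2] at h1
    exact h1.comp he
  · intro h0
    have h1 := congrArg (fun p => p.coeff A.natDegree) h0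
    simp only [coeff_act, coeff_zero, coeff_natDegree, mul_eq_zero] at h1
    have h2 : (A.natDegree.factorial : ℝ) ≠ 0 := by exact_mod_cast A.natDegree.factorial_ne_zero
    have h3 := hBpos A.natDegree le_rfl
    have h4 := leadingCoeff_ne_zero.2 hA.ne_zero
    tauto

end Pool.Agent.Work.MP_5e2fde_an
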