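import Pool.Agent.Work.MP_5e2fde_an.Mult

set_option autoImplicit false

open Polynomial Filter MeasureTheory Set

namespace Pool.Agent.Work.MP_5e2fde_an

/-- the kernel -/
noncomputable def ker (s c u : ℝ) : ℝ := (1 - Real.exp (-(c * u))) * u ^ (-1 - s)

lemma ker_nonneg {s c u : ℝ} (hc : 0 ≤ c) (hu : 0 < u) : 0 ≤ ker s c u := by
  unfold ker
  apply mul_nonneg
  · rw [sub_nonneg, Real.exp_le_one_iff]
    have : 0 ≤ c * u := by positivity
    linarith
  · positivity

lemma ker_le_left {s c u : ℝ} (hc : 0 ≤ c) (hu : 0 < u) : ker s c u ≤ c * u ^ (-s) := by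
  unfold ker
  have h1 : 1 - Real.exp (-(c * u)) ≤ c * u := by
    have := Real.add_one_le_exp (-(c * u))
    linarith
  have h2 : c * u ^ (-s) = (c * u) * u ^ (-1 - s) := by
    have h3 : u ^ (-s) = u ^ (1 + (-1 - s)) := by ring_nf
    rw [h3, Real.rpow_add hu, Real.rpow_one]
    ring
  rw [h2]
  exact mul_le_mul_of_nonneg_right h1 (by positivity)

lemma ker_le_right {s c u : ℝ} (hu : 0 < u) : ker s c u ≤ u ^ (-1 - s) := by
  unfold ker
  have h1 : 1 - Real.exp (-(c * u)) ≤ 1 := by
    have := Real.exp_pos (-(c * u))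
    linarith
  calc (1 - Real.exp (-(c * u))) * u ^ (-1 - s) ≤ 1 * u ^ (-1 - s) :=
        mul_le_mul_of_nonneg_right h1 (by positivity)
    _ = _ := one_mul _

lemma ker_continuousOn (s c : ℝ) : ContinuousOn (ker s c) (Ioi 0) := by
  unfold ker
  apply ContinuousOn.mul
  · fun_prop
  · intro u hu
    exact (Real.continuousAt_rpow_const u _ (Or.inl (ne_of_gt hu))).continuousWithinAt

lemma ker_integrable {s c : ℝ} (hs0 : 0 < s) (hs1 : s < 1) (hc : 0 ≤ c) :
    IntegrableOn (ker s c) (Ioi 0) := by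
  have hsplit : Ioi (0 : ℝ) = Ioc 0 1 ∪ Ioi 1 := by
    ext x; simp only [mem_Ioi, mem_union, mem_Ioc]
    constructor
    · intro h
      rcases le_or_gt x 1 with h1 | h1
      · left; exact ⟨h, h1⟩
      · right; exact h1
    · rintro (h | h)
      · exact h.1
      · linarith
  rw [hsplit]
  apply IntegrableOn.union
  · have h1 : IntegrableOn (fun u : ℝ => c * u ^ (-s)) (Ioc 0 1) := by
      apply Integrable.const_mul
      have := (intervalIntegral.intervalIntegrable_rpow' (a := 0) (b := 1) (r := -s) (by linarith))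
      rw [intervalIntegrable_iff_integrableOn_Ioc_of_le (by norm_num)] at this
      exact this
    refine h1.mono' ?_ ?_
    · exact ((ker_continuousOn s c).mono (fun x hx => hx.1)).aestronglyMeasurable measurableSet_Ioc
    · rw [ae_restrict_iff' measurableSet_Ioc]
      filter_upwards with u hu
      rw [Real.norm_of_nonneg (ker_nonneg hc hu.1)]
      exact ker_le_left hc hu.1
  · have h1 : IntegrableOn (fun u : ℝ => u ^ (-1 - s)) (Ioi 1) :=
      integrableOn_Ioi_rpow_of_lt (by linarith) (by norm_num)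
    refine h1.mono' ?_ ?_
    · exact ((ker_continuousOn s c).mono (fun x hx => by
        simp only [mem_Ioi] at hx ⊢; linarith)).aestronglyMeasurable measurableSet_Ioi
    · rw [ae_restrict_iff' measurableSet_Ioi]
      filter_upwards with u hu
      have hu0 : 0 < u := by simp only [mem_Ioi] at hu; linarith
      rw [Real.norm_of_nonneg (ker_nonneg hc hu0)]
      exact ker_le_right hu0

/-- the normalising constant -/
noncomputable def kc (s : ℝ) : ℝ := ∫ u in Ioi (0 : ℝ), ker s 1 u

lemma ker_integral {s : ℝ} (hs0 : 0 < s) (k : ℕ) :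
    ∫ u in Ioi (0 : ℝ), ker s k u = (k : ℝ) ^ s * kc s := by
  rcases Nat.eq_zero_or_pos k with rfl | hk
  · simp [ker, Real.zero_rpow hs0.ne']
  · have hk' : (0 : ℝ) < k := by exact_mod_cast hk
    have h1 := integral_comp_mul_left_Ioi (fun v => ker s 1 v) 0 hk'
    rw [mul_zero] at h1
    have h2 : ∀ u ∈ Ioi (0 : ℝ), ker s k u = (k : ℝ) ^ (1 + s) * ker s 1 (k * u) := by
      intro u hu
      have hu0 : (0 : ℝ) < u := hu
      unfold ker
      rw [Real.mul_rpow hk'.le hu0.le, one_mul]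
      have h3 : (k : ℝ) ^ (1 + s) * (k : ℝ) ^ (-1 - s) = 1 := by
        rw [← Real.rpow_add hk']; ring_nf; simp
      linear_combination (-(1 - Real.exp (-(k * u))) * u ^ (-1 - s)) * h3
    rw [setIntegral_congr_fun measurableSet_Ioi h2, integral_const_mul, h1, smul_eq_mul, kc]
    rw [Real.rpow_add hk', Real.rpow_one]
    field_simp

lemma act_rpow_eval {s : ℝ} (hs0 : 0 < s) (hs1 : s < 1) (A : ℝ[X]) (x : ℝ) :
    ∫ u in Ioi (0 : ℝ), (A.eval x - A.eval (x * Real.exp (-u))) * u ^ (-1 - s) =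
      kc s * (act (fun k => (k : ℝ) ^ s) A).eval x := by
  have h1 : ∀ u : ℝ, (A.eval x - A.eval (x * Real.exp (-u))) * u ^ (-1 - s) =
      ∑ k ∈ Finset.range (A.natDegree + 1), (A.coeff k * x ^ k) * ker s k u := by
    intro u
    rw [eval_eq_sum_range, eval_eq_sum_range, ← Finset.sum_sub_distrib, Finset.sum_mul]
    apply Finset.sum_congr rfl
    intro k _
    unfold ker
    rw [mul_pow, ← Real.exp_nat_mul]
    ring_nf
  simp_rw [h1]
  rw [integral_finsetSum]
  · simp_rw [integral_const_mul, ker_integral hs0]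
    rw [eval_eq_sum_range' (n := A.natDegree + 1) (by
      have := natDegree_act_le (fun k => (k : ℝ) ^ s) A; omega), Finset.mul_sum]
    apply Finset.sum_congr rfl
    intro k _
    rw [coeff_act]
    ring
  · intro k _
    exact (ker_integrable hs0 hs1 (by positivity)).const_mul _

lemma integrable_act {s : ℝ} (hs0 : 0 < s) (hs1 : s < 1) (A : ℝ[X]) (x : ℝ) :
    IntegrableOn (fun u : ℝ => (A.eval x - A.eval (x * Real.exp (-u))) * u ^ (-1 - s)) (Ioi 0) := by
  have h1 : ∀ u : ℝ, (A.eval x - A.eval (x * Real.exp (-u))) * u ^ (-1 - s) =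
      ∑ k ∈ Finset.range (A.natDegree + 1), (A.coeff k * x ^ k) * ker s k u := by
    intro u
    rw [eval_eq_sum_range, eval_eq_sum_range, ← Finset.sum_sub_distrib, Finset.sum_mul]
    apply Finset.sum_congr rfl
    intro k _
    unfold ker
    rw [mul_pow, ← Real.exp_nat_mul]
    ring_nf
  simp_rw [h1]
  apply integrable_finsetSum
  intro k _
  exact (ker_integrable hs0 hs1 (by positivity)).const_mul _

lemma integral_pos_of {f : ℝ → ℝ} (hf : ContinuousOn f (Ioi 0)) (hint : IntegrableOn f (Ioi 0))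
    (hnn : ∀ u ∈ Ioi (0 : ℝ), 0 ≤ f u) {u₀ : ℝ} (hu₀ : 0 < u₀) (hpos : 0 < f u₀) :
    0 < ∫ u in Ioi (0 : ℝ), f u := by
  rw [setIntegral_pos_iff_support_of_nonneg_ae]
  · have h1 : ∀ᶠ u in nhds u₀, 0 < f u ∧ 0 < u := by
      have h2 : ContinuousAt f u₀ := hf.continuousAt (Ioi_mem_nhds hu₀)
      exact (h2.eventually (lt_mem_nhds hpos)).and (lt_mem_nhds hu₀)
    obtain ⟨l, r, hlr, hsub⟩ := mem_nhds_iff_exists_Ioo_subset.1 h1
    have h3 : Ioo l r ⊆ Function.support f ∩ Ioi 0 := by
      intro u hu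
      have := hsub hu
      exact ⟨ne_of_gt this.1, this.2⟩
    refine lt_of_lt_of_le ?_ (measure_mono h3)
    rw [Real.volume_Ioo]
    simp
    exact hlr.1.trans hlr.2
  · rw [EventuallyLE, ae_restrict_iff' measurableSet_Ioi]
    filter_upwards with u hu
    exact hnn u hu
  · exact hint

lemma kc_pos {s : ℝ} (hs0 : 0 < s) (hs1 : s < 1) : 0 < kc s := by
  apply integral_pos_of (ker_continuousOn s 1) (ker_integrable hs0 hs1 zero_le_one)
    (fun u hu => ker_nonneg zero_le_one hu) (u₀ := 1) one_pos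
  unfold ker
  simp

/-- The sign of `∑ k^s a_k x^k` at a one-sided extremal point of `∑ a_k x^k`. -/
lemma act_rpow_sign {s : ℝ} (hs0 : 0 < s) (hs1 : s < 1) (A : ℝ[X]) (x σ : ℝ)
    (h : ∀ u : ℝ, 0 < u → 0 ≤ σ * (A.eval x - A.eval (x * Real.exp (-u)))) {u₀ : ℝ} (hu₀ : 0 < u₀)
    (h₀ : 0 < σ * (A.eval x - A.eval (x * Real.exp (-u₀)))) :
    0 < σ * (act (fun k => (k : ℝ) ^ s) A).eval x := by
  have h1 := act_rpow_eval hs0 hs1 A x
  have h2 : 0 < ∫ u in Ioi (0 : ℝ), σ * ((A.eval x - A.eval (x * Real.exp (-u))) * u ^ (-1 - s)) := by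
    apply integral_pos_of _ ((integrable_act hs0 hs1 A x).const_mul σ) _ hu₀
    · rw [← mul_assoc]
      positivity
    · apply ContinuousOn.mul continuousOn_const
      apply ContinuousOn.mul
      · fun_prop
      · intro u hu
        exact (Real.continuousAt_rpow_const u _ (Or.inl (ne_of_gt hu))).continuousWithinAt
    · intro u hu
      rw [← mul_assoc]
      have hu' : (0 : ℝ) < u := hu
      exact mul_nonneg (h u hu) (by positivity)
  rw [integral_const_mul, h1] at h2
  have h3 := kc_pos hs0 hs1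
  have h4 : σ * (kc s * (act (fun k => (k : ℝ) ^ s) A).eval x) =
      kc s * (σ * (act (fun k => (k : ℝ) ^ s) A).eval x) := by ring
  rw [h4] at h2
  exact (mul_pos_iff_of_pos_left h3).1 h2

end Pool.Agent.Work.MP_5e2fde_an
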