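import Pool.Agent.Work.MP_5e2fde_an.Stab

set_option autoImplicit false

open Polynomial Filter

namespace Pool.Agent.Work.MP_5e2fde_an

/-- real polynomial without zeros in the upper half plane -/
def RR (A : ℝ[X]) : Prop := Stab (A.map (algebraMap ℝ ℂ))

lemma RR.ne_zero {A : ℝ[X]} (h : RR A) : A ≠ 0 := by
  rintro rfl
  exact Stab.ne_zero h (by simp)

/-- multiply the coefficients by a sequence -/
noncomputable def act (f : ℕ → ℝ) (A : ℝ[X]) : ℝ[X] :=
  ∑ k ∈ Finset.range (A.natDegree + 1), C (f k * A.coeff k) * X ^ k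

lemma coeff_act (f : ℕ → ℝ) (A : ℝ[X]) (k : ℕ) : (act f A).coeff k = f k * A.coeff k := by
  unfold act
  rw [finsetSum_coeff]
  simp only [coeff_C_mul, coeff_X_pow, mul_ite, mul_one, mul_zero]
  rw [Finset.sum_ite_eq]
  split_ifs with h
  · rfl
  · rw [Finset.mem_range, not_lt] at h
    rw [coeff_eq_zero_of_natDegree_lt (by omega), mul_zero]

lemma natDegree_act_le (f : ℕ → ℝ) (A : ℝ[X]) : (act f A).natDegree ≤ A.natDegree := by
  rw [natDegree_le_iff_coeff_eq_zero]
  intro k hk
  rw [coeff_act, coeff_eq_zero_of_natDegree_lt hk, mul_zero]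

lemma act_act (f g : ℕ → ℝ) (A : ℝ[X]) : act f (act g A) = act (fun k => f k * g k) A := by
  ext k
  rw [coeff_act, coeff_act, coeff_act, mul_assoc]

lemma act_ne_zero {f : ℕ → ℝ} (hf : ∀ k, f k ≠ 0) {A : ℝ[X]} (hA : A ≠ 0) : act f A ≠ 0 := by
  intro h
  apply hA
  ext k
  have := congrArg (fun p => p.coeff k) h
  simp only [coeff_act, coeff_zero, mul_eq_zero] at this
  rw [coeff_zero]
  exact this.resolve_left (hf k)

/-- Limits, coefficientwise. -/
lemma rr_of_tendsto (A : ℕ → ℝ[X]) (B : ℝ[X]) (d : ℕ) (hA : ∀ n, RR (A n))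
    (hd : ∀ n, (A n).natDegree ≤ d) (hB' : B.natDegree ≤ d)
    (hlim : ∀ k, Tendsto (fun n => (A n).coeff k) atTop (nhds (B.coeff k))) (hB : B ≠ 0) : RR B := by
  apply stab_of_tendsto (fun n => (A n).map (algebraMap ℝ ℂ)) _ d hA
  · intro n
    exact (natDegree_map_le).trans (hd n)
  · intro z
    have h1 : ∀ P : ℝ[X], P.natDegree ≤ d → (P.map (algebraMap ℝ ℂ)).eval z =
        ∑ k ∈ Finset.range (d + 1), ((P.coeff k : ℝ) : ℂ) * z ^ k := by
      intro P hP
      rw [eval_map, eval₂_eq_sum_range' _ (Nat.lt_succ_of_le hP)]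
      rfl
    rw [h1 B hB']
    simp_rw [fun n => h1 (A n) (hd n)]
    apply tendsto_finsetSum
    intro k _
    apply Tendsto.mul_const
    exact (Complex.continuous_ofReal.tendsto _).comp (hlim k)
  · intro h
    apply hB
    exact (Polynomial.map_eq_zero_iff (algebraMap ℝ ℂ).injective).1 h

lemma act_add_const (j : ℝ) (A : ℝ[X]) :
    act (fun k => (k : ℝ) + j) A = C j * A + X * derivative A := by
  ext k
  rw [coeff_act, coeff_add, coeff_C_mul]
  cases k with
  | zero => simp
  | succ k => rw [coeff_X_mul, coeff_derivative]; push_cast; ring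

lemma RR.act_add {A : ℝ[X]} (h : RR A) (j : ℝ) (hj : 0 ≤ j) (hd : 0 < A.natDegree ∨ 0 < j) :
    RR (act (fun k => (k : ℝ) + j) A) := by
  rw [act_add_const]
  unfold RR at *
  rw [Polynomial.map_add, Polynomial.map_mul, Polynomial.map_mul, Polynomial.map_X, Polynomial.map_C,
    ← Polynomial.derivative_map]
  apply Stab.laguerre h j hj
  rwa [natDegree_map_eq_of_injective (algebraMap ℝ ℂ).injective]

lemma RR.act_pow {A : ℝ[X]} (h : RR A) (c : ℝ) (hc : 0 < c) : RR (act (fun k => c ^ k) A) := by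
  intro z hz
  have h1 : (act (fun k => c ^ k) A) = A.comp (C c * X) := by
    ext k
    rw [coeff_act, comp_C_mul_X_coeff, mul_comm]
  rw [h1, Polynomial.map_comp, eval_comp]
  apply h
  simp only [Polynomial.map_mul, map_C, map_X, eval_mul, eval_C, eval_X]
  simp
  positivity

lemma RR.act_const {A : ℝ[X]} (h : RR A) (c : ℝ) (hc : c ≠ 0) : RR (act (fun _ => c) A) := by
  intro z hz
  have h1 : (act (fun _ => c) A) = C c * A := by
    ext k
    rw [coeff_act, coeff_C_mul]
  rw [h1, Polynomial.map_mul, eval_mul]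
  refine mul_ne_zero ?_ (h z hz)
  simpa using hc

/-- the approximations of `1 / k!` -/
noncomputable def fM (M : ℕ) (k : ℕ) : ℝ := (∏ i ∈ Finset.range k, (1 + ((i : ℝ) + 1) / ((M : ℝ) + 1))) / (k.factorial : ℝ)

lemma fM_pos (M k : ℕ) : 0 < fM M k := by
  unfold fM
  apply div_pos
  · apply Finset.prod_pos
    intro i _
    positivity
  · exact_mod_cast k.factorial_pos

lemma fM_tendsto (k : ℕ) : Tendsto (fun M => fM M k) atTop (nhds (1 / (k.factorial : ℝ))) := by
  unfold fM
  apply Tendsto.div_const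
  have key : Tendsto (fun M : ℕ => ∏ i ∈ Finset.range k, (1 + ((i : ℝ) + 1) / ((M : ℝ) + 1))) atTop
      (nhds (∏ i ∈ Finset.range k, (1 : ℝ))) := by
    apply tendsto_finsetProd
    intro i _
    have h1 := tendsto_one_div_add_atTop_nhds_zero_nat (𝕜 := ℝ)
    have h2 := (h1.const_mul ((i : ℝ) + 1)).const_add 1
    simp only [mul_zero, add_zero] at h2
    refine h2.congr (fun M => ?_)
    ring
  simpa using key

lemma fM_eq (M k : ℕ) : fM M k = (1 / ((M + 1).factorial : ℝ)) *
    ((∏ j ∈ Finset.range (M + 1), ((k : ℝ) + ((j : ℝ) + 1))) * (1 / ((M : ℝ) + 1)) ^ k) := by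
  have h1 : ∏ i ∈ Finset.range k, (1 + ((i : ℝ) + 1) / ((M : ℝ) + 1)) =
      (∏ i ∈ Finset.range k, ((M : ℝ) + 1 + ((i : ℝ) + 1))) * (1 / ((M : ℝ) + 1)) ^ k := by
    have : ((1 : ℝ) / ((M : ℝ) + 1)) ^ k = ∏ i ∈ Finset.range k, (1 / ((M : ℝ) + 1)) := by simp
    rw [this, ← Finset.prod_mul_distrib]
    apply Finset.prod_congr rfl
    intro i _
    field_simp
  have h2 : ∀ a b : ℕ, (∏ i ∈ Finset.range b, ((a : ℝ) + ((i : ℝ) + 1))) * (a.factorial : ℝ) = ((a + b).factorial : ℝ) := by
    intro a b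
    induction b with
    | zero => simp
    | succ b ih =>
      rw [Finset.prod_range_succ, mul_right_comm, ih, ← Nat.add_assoc, Nat.factorial_succ]
      push_cast
      ring
  unfold fM
  rw [h1]
  have h3 := h2 (M + 1) k
  have h4 := h2 k (M + 1)
  push_cast at h3 h4
  have h5 : ((M + 1).factorial : ℝ) ≠ 0 := by exact_mod_cast (M + 1).factorial_ne_zero
  have h6 : (k.factorial : ℝ) ≠ 0 := by exact_mod_cast k.factorial_ne_zero
  rw [add_comm (M + 1) k, ← h4] at h3
  field_simp
  linear_combination h3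

lemma RR.act_prod {A : ℝ[X]} (h : RR A) (M : ℕ) :
    RR (act (fun k => ∏ j ∈ Finset.range M, ((k : ℝ) + ((j : ℝ) + 1))) A) := by
  induction M with
  | zero =>
    simp only [Finset.range_zero, Finset.prod_empty]
    exact h.act_const 1 one_ne_zero
  | succ M ih =>
    have := ih.act_add ((M : ℝ) + 1) (by positivity) (Or.inr (by positivity))
    rw [act_act] at this
    convert this using 2
    ext k
    rw [Finset.prod_range_succ]
    ring

lemma RR.act_fM {A : ℝ[X]} (h : RR A) (M : ℕ) : RR (act (fM M) A) := by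
  have h1 := ((h.act_pow (1 / ((M : ℝ) + 1)) (by positivity)).act_prod (M + 1)).act_const
    (1 / ((M + 1).factorial : ℝ)) (by positivity)
  rw [act_act, act_act] at h1
  convert h1 using 2
  ext k
  rw [fM_eq]
  ring

/-- a general limiting principle for multipliers -/
lemma RR.act_limit {A : ℝ[X]} (f : ℕ → ℕ → ℝ) (g : ℕ → ℝ) (hg : ∀ k, g k ≠ 0)
    (hA0 : A ≠ 0) (hA : ∀ n, RR (act (f n) A)) (hlim : ∀ k, Tendsto (fun n => f n k) atTop (nhds (g k))) :
    RR (act g A) := by
  apply rr_of_tendsto (fun n => act (f n) A) _ A.natDegree hA (fun n => natDegree_act_le _ _)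
    (natDegree_act_le _ _) _ (act_ne_zero hg hA0)
  intro k
  simp_rw [coeff_act]
  exact (hlim k).mul_const _

lemma RR.act_inv_factorial {A : ℝ[X]} (h : RR A) : RR (act (fun k => 1 / (k.factorial : ℝ)) A) := by
  apply RR.act_limit fM _ (fun k => by positivity) h.ne_zero (fun n => h.act_fM n) fM_tendsto

end Pool.Agent.Work.MP_5e2fde_an
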