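import Mathlib

set_option autoImplicit false

open Polynomial

namespace Pool.Agent.Work.MP_5e2fde_an

/-- no zeros in the open upper half plane -/
def Stab (A : ℂ[X]) : Prop := ∀ z : ℂ, 0 < z.im → A.eval z ≠ 0

lemma Stab.ne_zero {A : ℂ[X]} (h : Stab A) : A ≠ 0 := by
  rintro rfl
  exact h Complex.I (by simp) (by simp)

lemma Stab.root_im {A : ℂ[X]} (h : Stab A) {r : ℂ} (hr : r ∈ A.roots) : r.im ≤ 0 := by
  by_contra hcon
  push Not at hcon
  exact h r hcon ((mem_roots'.1 hr).2)

lemma multiset_sum_im_nonpos (s : Multiset ℂ) (h : ∀ z ∈ s, z.im ≤ 0) : s.sum.im ≤ 0 := by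
  induction s using Multiset.induction_on with
  | empty => simp
  | cons a s ih =>
    rw [Multiset.sum_cons, Complex.add_im]
    have h1 := h a (Multiset.mem_cons_self a s)
    have h2 := ih (fun z hz => h z (Multiset.mem_cons_of_mem hz))
    linarith

/-- The logarithmic derivative of a stable polynomial at a point of the closed upper half plane. -/
lemma Stab.logDeriv {A : ℂ[X]} (h : Stab A) {y : ℂ} (hy : 0 ≤ y.im) (hA : A.eval y ≠ 0) :
    ∃ S : ℂ, S.im ≤ 0 ∧ A.derivative.eval y = A.eval y * S := by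
  refine ⟨(A.roots.map fun z ↦ 1 / (y - z)).sum, ?_, ?_⟩
  · apply multiset_sum_im_nonpos
    intro z hz
    rw [Multiset.mem_map] at hz
    obtain ⟨r, hr, rfl⟩ := hz
    have hr1 := h.root_im hr
    rw [one_div, Complex.inv_im]
    apply div_nonpos_of_nonpos_of_nonneg
    · rw [Complex.sub_im]; linarith
    · exact Complex.normSq_nonneg _
  · rw [← (IsAlgClosed.splits A).eval_derivative_div_eval_of_ne_zero hA]
    field_simp

/-- the strict version in the open half plane -/
lemma Stab.logDeriv_strict {A : ℂ[X]} (h : Stab A) (hd : 0 < A.natDegree) {y : ℂ} (hy : 0 < y.im) :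
    ∃ S : ℂ, S.im < 0 ∧ A.derivative.eval y = A.eval y * S := by
  refine ⟨(A.roots.map fun z ↦ 1 / (y - z)).sum, ?_, ?_⟩
  · have hcard : 0 < Multiset.card A.roots := by
      rw [← (IsAlgClosed.splits A).natDegree_eq_card_roots]
      exact hd
    obtain ⟨r, hr⟩ := Multiset.card_pos_iff_exists_mem.1 hcard
    obtain ⟨t, ht⟩ := Multiset.exists_cons_of_mem hr
    have hneg : ∀ r ∈ A.roots, (1 / (y - r)).im < 0 := by
      intro r hr
      have hr1 := h.root_im hr
      rw [one_div, Complex.inv_im]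
      apply div_neg_of_neg_of_pos
      · rw [Complex.sub_im]; linarith
      · rw [Complex.normSq_pos]
        intro h0
        have := congrArg Complex.im h0
        rw [Complex.sub_im, Complex.zero_im] at this
        linarith
    rw [ht, Multiset.map_cons, Multiset.sum_cons, Complex.add_im]
    have h1 := hneg r hr
    have h2 : (Multiset.map (fun z ↦ 1 / (y - z)) t).sum.im ≤ 0 := by
      apply multiset_sum_im_nonpos
      intro z hz
      rw [Multiset.mem_map] at hz
      obtain ⟨r', hr', rfl⟩ := hz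
      exact (hneg r' (by rw [ht]; exact Multiset.mem_cons_of_mem hr')).le
    linarith
  · rw [← (IsAlgClosed.splits A).eval_derivative_div_eval_of_ne_zero (h y hy)]
    have := h y hy
    field_simp

/-- Laguerre's multiplier: `j A + X A'`. -/
lemma Stab.laguerre {A : ℂ[X]} (h : Stab A) (j : ℝ) (hj : 0 ≤ j) (hd : 0 < A.natDegree ∨ 0 < j) :
    Stab (C (j : ℂ) * A + X * derivative A) := by
  intro y hy h0
  have hA := h y hy
  rw [eval_add, eval_mul, eval_mul, eval_C, eval_X] at h0
  have hy0 : y ≠ 0 := by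
    rintro rfl; simp at hy
  have key : ∀ S : ℂ, A.derivative.eval y = A.eval y * S → S = -(j : ℂ) / y := by
    intro S hS
    rw [hS] at h0
    have : A.eval y * ((j : ℂ) + y * S) = 0 := by linear_combination h0
    rcases mul_eq_zero.1 this with h1 | h1
    · exact absurd h1 hA
    · field_simp
      linear_combination h1
  have him : (-(j : ℂ) / y).im = j * y.im / Complex.normSq y := by
    rw [Complex.div_im]
    simp
    ring
  have hn : 0 < Complex.normSq y := Complex.normSq_pos.2 hy0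
  rcases Nat.eq_zero_or_pos A.natDegree with hdeg | hdeg
  · have hj' : 0 < j := by
      rcases hd with hd | hd
      · omega
      · exact hd
    obtain ⟨S, hS, hS'⟩ := h.logDeriv hy.le hA
    have h1 := key S hS'
    rw [h1, him] at hS
    have : 0 < j * y.im / Complex.normSq y := by positivity
    linarith
  · obtain ⟨S, hS, hS'⟩ := h.logDeriv_strict hdeg hy
    have h1 := key S hS'
    rw [h1, him] at hS
    have : 0 ≤ j * y.im / Complex.normSq y := by positivity
    linarith

/-- comparison of the values of a stable polynomial -/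
lemma Stab.eval_le {A : ℂ[X]} (h : Stab A) {z₀ : ℂ} (hz : 0 < z₀.im) (z₁ : ℂ) :
    ‖A.eval z₁‖ ≤ (1 + ‖z₁ - z₀‖ / z₀.im) ^ A.natDegree * ‖A.eval z₀‖ := by
  have hs := IsAlgClosed.splits A
  have hroots : ∀ r ∈ A.roots, ‖z₁ - r‖ ≤ (1 + ‖z₁ - z₀‖ / z₀.im) * ‖z₀ - r‖ := by
    intro r hr
    have hr1 := h.root_im hr
    have h1 : z₀.im ≤ ‖z₀ - r‖ := by
      have := Complex.abs_im_le_norm (z₀ - r)
      rw [Complex.sub_im] at this
      have h2 := le_abs_self (z₀.im - r.im)
      linarith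
    have h2 : ‖z₁ - r‖ ≤ ‖z₁ - z₀‖ + ‖z₀ - r‖ := by
      have := norm_add_le (z₁ - z₀) (z₀ - r)
      simpa using this
    have h3 : ‖z₁ - z₀‖ ≤ ‖z₁ - z₀‖ / z₀.im * ‖z₀ - r‖ := by
      rw [div_mul_eq_mul_div, le_div_iff₀ hz]
      exact mul_le_mul_of_nonneg_left h1 (norm_nonneg _)
    linarith
  have hK : 0 ≤ 1 + ‖z₁ - z₀‖ / z₀.im := by positivity
  have key : ∀ s : Multiset ℂ, (∀ r ∈ s, ‖z₁ - r‖ ≤ (1 + ‖z₁ - z₀‖ / z₀.im) * ‖z₀ - r‖) →
      ‖(s.map fun r => z₁ - r).prod‖ ≤
        (1 + ‖z₁ - z₀‖ / z₀.im) ^ (Multiset.card s) * ‖(s.map fun r => z₀ - r).prod‖ := by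
    intro s
    induction s using Multiset.induction_on with
    | empty => intro _; simp
    | cons a s ih =>
      intro hs
      have h1 := hs a (Multiset.mem_cons_self a s)
      have h2 := ih (fun r hr => hs r (Multiset.mem_cons_of_mem hr))
      rw [Multiset.map_cons, Multiset.prod_cons, norm_mul, Multiset.map_cons, Multiset.prod_cons,
        norm_mul, Multiset.card_cons]
      calc ‖z₁ - a‖ * ‖(s.map fun r => z₁ - r).prod‖
          ≤ ((1 + ‖z₁ - z₀‖ / z₀.im) * ‖z₀ - a‖) *
            ((1 + ‖z₁ - z₀‖ / z₀.im) ^ (Multiset.card s) * ‖(s.map fun r => z₀ - r).prod‖) := by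
            apply mul_le_mul h1 h2 (norm_nonneg _)
            positivity
        _ = (1 + ‖z₁ - z₀‖ / z₀.im) ^ (Multiset.card s + 1) *
            (‖z₀ - a‖ * ‖(s.map fun r => z₀ - r).prod‖) := by ring
  rw [hs.eval_eq_prod_roots, hs.eval_eq_prod_roots, norm_mul, norm_mul, hs.natDegree_eq_card_roots]
  have := key A.roots hroots
  calc ‖A.leadingCoeff‖ * ‖(A.roots.map fun r => z₁ - r).prod‖
      ≤ ‖A.leadingCoeff‖ * ((1 + ‖z₁ - z₀‖ / z₀.im) ^ (Multiset.card A.roots) *
        ‖(A.roots.map fun r => z₀ - r).prod‖) := by gcongr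
    _ = _ := by ring

/-- Limits of stable polynomials are stable. -/
lemma stab_of_tendsto (A : ℕ → ℂ[X]) (B : ℂ[X]) (d : ℕ) (hA : ∀ n, Stab (A n))
    (hd : ∀ n, (A n).natDegree ≤ d) (hlim : ∀ z, Filter.Tendsto (fun n => (A n).eval z) Filter.atTop
      (nhds (B.eval z))) (hB : B ≠ 0) : Stab B := by
  intro z₀ hz h0
  obtain ⟨z₁, hz₁⟩ : ∃ z₁, B.eval z₁ ≠ 0 := by
    by_contra hcon
    push Not at hcon
    exact hB (Polynomial.funext (by simpa using hcon))
  have hle : ∀ n, ‖(A n).eval z₁‖ ≤ (1 + ‖z₁ - z₀‖ / z₀.im) ^ d * ‖(A n).eval z₀‖ := by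
    intro n
    refine ((hA n).eval_le hz z₁).trans ?_
    apply mul_le_mul_of_nonneg_right _ (norm_nonneg _)
    apply pow_le_pow_right₀ _ (hd n)
    have : 0 ≤ ‖z₁ - z₀‖ / z₀.im := by positivity
    linarith
  have h1 := (hlim z₁).norm
  have h2 := ((hlim z₀).norm).const_mul ((1 + ‖z₁ - z₀‖ / z₀.im) ^ d)
  have h3 := le_of_tendsto_of_tendsto' h1 h2 hle
  rw [h0, norm_zero, mul_zero] at h3
  exact hz₁ (norm_le_zero_iff.1 h3)

end Pool.Agent.Work.MP_5e2fde_an
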